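import Pool.Agent.TH50.DL.Defs
import Pool.Agent.H422R2.LP.Red2

/-!
# The linear form at `z = 1/2` and its entries, `p` odd

Port of `H422R2/LP` (files Form, Entry, Integral, Bridge, Red2) from `z = -1` to `z = 1/2`:
`LLz(f) = ∑_k (-2)^k c_k (W f)(-k) (γ + s_k) + E[(W f) / P]` with
`E[q] = -α EB(q) + β EB(q')`, `s_k = ∑_{1 ≤ s ≤ k} 2^(-s) (α / s + β / s ^ 2)`.
-/

open Polynomial

namespace Pool.Agent.TH11.DL

open Pool.Agent.LP hiding L DD Lf
open Pool.Agent.TH50.DL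

noncomputable section

/-! ### the form -/

/-- `s_k = ∑_{1 ≤ s ≤ k} 2^(-s) (α / s + β / s ^ 2)` -/
def sSz (α β : ℚ) (k : ℕ) : ℚ :=
  ∑ i ∈ Finset.range k, (1 / 2 : ℚ) ^ (i + 1) * (α / ((i : ℚ) + 1) + β / ((i : ℚ) + 1) ^ 2)

/-- `E[q] = -α EB(q) + β EB(q')` -/
def EEz (α β : ℚ) : ℚ[X] →ₗ[ℚ] ℚ := -(α • EB) + β • (EB ∘ₗ derivative)

lemma EEz_apply (α β : ℚ) (q : ℚ[X]) : EEz α β q = -(α * EB q) + β * EB (derivative q) := by
  simp [EEz]

/-- the linear form -/
def LLz (h : ℕ) (W : ℚ[X]) (α β γ : ℚ) : ℚ[X] →ₗ[ℚ] ℚ :=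
  (∑ k ∈ Finset.range (h + 1),
    ((-2) ^ k * cc h k * W.eval (-(k : ℚ)) * (γ + sSz α β k)) • leval (-(k : ℚ))) +
    EEz α β ∘ₗ dvm h ∘ₗ LinearMap.mulLeft ℚ W

lemma LLz_apply (h : ℕ) (W : ℚ[X]) (α β γ : ℚ) (f : ℚ[X]) :
    LLz h W α β γ f =
      ∑ k ∈ Finset.range (h + 1), (-2) ^ k * cc h k * (W * f).eval (-(k : ℚ)) * (γ + sSz α β k) +
      (-(α * EB ((W * f) /ₘ PP h)) + β * EB (derivative ((W * f) /ₘ PP h))) := by
  unfold LLz
  rw [LinearMap.add_apply, LinearMap.comp_apply, LinearMap.comp_apply, EEz_apply, dvm_apply]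
  congr 1
  rw [LinearMap.sum_apply]
  refine Finset.sum_congr rfl fun k _ => ?_
  rw [LinearMap.smul_apply, leval_apply, smul_eq_mul, eval_mul]
  ring

lemma LLz_PP (h : ℕ) (W : ℚ[X]) (α β γ : ℚ) (f : ℚ[X]) :
    LLz h W α β γ (PP h * f) = -(α * EB (W * f)) + β * EB (derivative (W * f)) := by
  rw [LLz_apply]
  have h1 : W * (PP h * f) = PP h * (W * f) := by ring
  have h2 : (PP h).Monic := nd_monic _
  rw [h1, mul_divByMonic_cancel_left _ h2, Finset.sum_eq_zero, zero_add]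
  intro k hk
  rw [eval_mul, PP_eval (by rw [Finset.mem_range] at hk; omega)]
  ring

/-- off-diagonal entries -/
lemma LLz_off {h k l : ℕ} (W : ℚ[X]) (α β γ : ℚ) (hl : l ≤ h) (hkl : k ≠ l) :
    LLz h W α β γ (n1 h k * n1 h l) =
      -(α * EB (W * n2 h k l)) + β * EB (derivative (W * n2 h k l)) := by
  rw [n1_mul_n1 hl hkl, LLz_PP]

/-- diagonal entries -/
lemma LLz_diag {h l : ℕ} (W : ℚ[X]) (α β γ : ℚ) (hl : l ≤ h) :
    LLz h W α β γ (n1 h l * n1 h l) = (-2) ^ l * W.eval (-(l : ℚ)) * (γ + sSz α β l) / cc h l +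
      (-(α * EB ((W * n1 h l) /ₘ (X - C (((-l : ℤ) : ℚ))))) +
        β * EB (derivative ((W * n1 h l) /ₘ (X - C (((-l : ℤ) : ℚ)))))) := by
  rw [LLz_apply]
  have h2 : (PP h).Monic := nd_monic _
  have h0 : (X - C (((-l : ℤ) : ℚ))) = (X + C (l : ℚ)) := by
    push_cast
    rw [C_neg]
    ring
  have h1 : (W * (n1 h l * n1 h l)) /ₘ PP h = (W * n1 h l) /ₘ (X - C (((-l : ℤ) : ℚ))) := by
    rw [h0]
    have h3 := modByMonic_add_div (W * n1 h l) (X + C (l : ℚ))
    have h4 : (X + C (l : ℚ)).Monic := monic_X_add_C _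
    refine (div_modByMonic_unique _ (((W * n1 h l) %ₘ (X + C (l : ℚ))) * n1 h l) h2 ⟨?_, ?_⟩).1
    · rw [← mul_n1 hl]
      linear_combination (n1 h l) * h3
    · rw [← mul_n1 hl, degree_mul, degree_mul]
      have h5 : (n1 h l) ≠ 0 := (nd_monic _).ne_zero
      have h6 : degree (n1 h l) ≠ ⊥ := degree_ne_bot.2 h5
      exact WithBot.add_lt_add_right h6 (degree_modByMonic_lt _ h4)
  rw [h1]
  congr 1
  rw [Finset.sum_eq_single l]
  · rw [eval_mul, eval_mul]
    have h3 := n1_eval_sq hl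
    have h4 : cc h l ≠ 0 := (cc_pos h l).ne'
    rw [eq_div_iff h4]
    linear_combination ((-2) ^ l * eval (-(l : ℚ)) W * (γ + sSz α β l)) * h3
  · intro j hj hjl
    rw [Finset.mem_range] at hj
    have h3 : (n1 h l).eval (-(j : ℚ)) = 0 := by
      unfold n1
      rw [nd_eval]
      refine Finset.prod_eq_zero (Finset.mem_erase.2 ⟨hjl, Finset.mem_range.2 hj⟩) ?_
      ring
    rw [eval_mul, eval_mul, h3]
    ring
  · intro hj
    exact absurd (Finset.mem_range.2 (by omega)) hj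

/-! ### entries -/

lemma norm_neg_two_pow {p : ℕ} [Fact p.Prime] (i : ℕ) : padicNorm p ((-2 : ℚ) ^ i) ≤ 1 := by
  have := padicNorm.of_int (p := p) ((-2 : ℤ) ^ i)
  push_cast at this
  exact this

lemma norm_half_pow {p : ℕ} [Fact p.Prime] (hp : p ≠ 2) (i : ℕ) :
    padicNorm p ((1 / 2 : ℚ) ^ i) = 1 := by
  have h1 : padicNorm p (1 / 2 : ℚ) = 1 := by
    have h2 : padicNorm p (2 : ℚ) = 1 := by
      have h3 := (padicNorm.int_eq_one_iff (p := p) (2 : ℤ)).2 (by
        intro hd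
        have h4 : p ∣ 2 := by exact_mod_cast hd
        exact hp ((Nat.prime_dvd_prime_iff_eq Fact.out Nat.prime_two).1 h4))
      push_cast at h3
      exact h3
    rw [padicNorm.div, h2, padicNorm.one, div_one]
  rw [Pool.Agent.LP.norm_pow, h1, one_pow]

lemma norm_sSz {p : ℕ} [Fact p.Prime] (hp : p ≠ 2) {α β : ℚ} (hα : padicNorm p α ≤ 1)
    (hβ : padicNorm p β ≤ 1) {k κ : ℕ}
    (hk : k < p ^ (κ + 1)) : padicNorm p (sSz α β k) ≤ p ^ (2 * κ) := by
  have hp1 : 1 < p := (Fact.out : p.Prime).one_lt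
  have hp1' : (1 : ℚ) ≤ p := by exact_mod_cast hp1.le
  unfold sSz
  refine padicNorm.sum_le' (fun i hi => ?_) (by positivity)
  rw [Finset.mem_range] at hi
  rw [padicNorm.mul, norm_half_pow hp, one_mul]
  have h1 : padicNorm p (((i + 1 : ℕ) : ℚ)⁻¹) ≤ p ^ κ := norm_inv_nat (by omega) (by omega)
  push_cast at h1
  refine norm_add_le ?_ ?_
  · rw [div_eq_mul_inv]
    refine (norm_mul_le hα h1).trans ?_
    rw [one_mul]
    exact pow_le_pow_right₀ hp1' (by omega)
  · rw [div_eq_mul_inv, ← inv_pow, pow_two]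
    refine (norm_mul_le hβ (norm_mul_le h1 h1)).trans ?_
    rw [one_mul, ← pow_add]
    exact pow_le_pow_right₀ hp1' (by omega)

/-- `E[q]`, every prime -/
lemma norm_EEz {p : ℕ} [Fact p.Prime] {α β : ℚ} (hα : padicNorm p α ≤ 1)
    (hβ : padicNorm p β ≤ 1) {q : ℚ[X]} {κ : ℕ} (hd : q.natDegree < p ^ (κ + 1)) {A : ℚ} (hA : 0 ≤ A)
    (h : ∀ n : ℤ, padicNorm p (q.eval (n : ℚ)) ≤ A) :
    padicNorm p (-(α * EB q) + β * EB (derivative q)) ≤ p ^ κ * A := by
  have hp1 : 1 < p := (Fact.out : p.Prime).one_lt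
  have hp1' : (1 : ℚ) ≤ p := by exact_mod_cast hp1.le
  have h1 : (1 : ℚ) ≤ (p : ℚ) ^ κ := one_le_pow₀ hp1'
  refine norm_add_le ?_ ?_
  · rw [padicNorm.neg]
    refine (norm_mul_le hα (norm_EB hA h)).trans ?_
    nlinarith
  · refine (norm_mul_le hβ (norm_EB_derivative hd hA h)).trans ?_
    rw [one_mul]

/-- entries, general bound -/
theorem norm_entryz {p : ℕ} [Fact p.Prime] (hp : p ≠ 2) {h : ℕ} {W : ℚ[X]} {α β γ : ℚ}
    (hα : padicNorm p α ≤ 1) (hβ : padicNorm p β ≤ 1) (hγ : padicNorm p γ ≤ 1)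
    (hW : ∀ n : ℤ, padicNorm p (W.eval (n : ℚ)) ≤ 1) {κ : ℕ} (hd : W.natDegree + h < p ^ (κ + 1))
    {R : ℚ} (hR : (p : ℚ) ^ κ ≤ R)
    (hR2 : ∀ k l : ℕ, k ≤ h → l ≤ h → k ≠ l →
      padicNorm p (((l : ℚ) - k)⁻¹) * padicNorm p (cc h l / cc h k) ≤ R)
    {k l : ℕ} (hk : k ≤ h) (hl : l ≤ h) :
    padicNorm p (cc h l * LLz h W α β γ (n1 h k * n1 h l)) ≤ p ^ κ * R := by
  have hp1 : 1 < p := (Fact.out : p.Prime).one_lt
  have hp1' : (1 : ℚ) ≤ p := by exact_mod_cast hp1.le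
  have hpk : (1 : ℚ) ≤ (p : ℚ) ^ κ := one_le_pow₀ hp1'
  have hR0 : (0 : ℚ) ≤ R := by linarith
  by_cases hkl : k = l
  · subst hkl
    rw [LLz_diag W α β γ hk]
    set f : ℚ[X] := W * n1 h k with hf
    set g : ℚ[X] := C (cc h k) * f with hg
    have hm : (X - C (((-k : ℤ) : ℚ))).Monic := monic_X_sub_C _
    have h1 : g /ₘ (X - C (((-k : ℤ) : ℚ))) = C (cc h k) * (f /ₘ (X - C (((-k : ℤ) : ℚ)))) := by
      refine (div_modByMonic_unique _ (C (cc h k) * (f %ₘ (X - C (((-k : ℤ) : ℚ))))) hm ⟨?_, ?_⟩).1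
      · have h3 := modByMonic_add_div f (X - C (((-k : ℤ) : ℚ)))
        rw [hg]
        linear_combination (C (cc h k)) * h3
      · rw [← smul_eq_C_mul]
        exact lt_of_le_of_lt (degree_smul_le _ _) (degree_modByMonic_lt _ hm)
    have h2 : cc h k * ((-2) ^ k * W.eval (-(k : ℚ)) * (γ + sSz α β k) / cc h k +
      (-(α * EB (f /ₘ (X - C (((-k : ℤ) : ℚ))))) +
        β * EB (derivative (f /ₘ (X - C (((-k : ℤ) : ℚ))))))) =
        (-2) ^ k * (W.eval (-(k : ℚ)) * (γ + sSz α β k)) +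
          (-(α * EB (g /ₘ (X - C (((-k : ℤ) : ℚ))))) +
        β * EB (derivative (g /ₘ (X - C (((-k : ℤ) : ℚ)))))) := by
      have h4 : cc h k ≠ 0 := (cc_pos h k).ne'
      rw [h1, derivative_C_mul, ← smul_eq_C_mul, ← smul_eq_C_mul, map_smul, map_smul, smul_eq_mul,
        smul_eq_mul]
      field_simp
    rw [h2]
    have hgd : g.natDegree < p ^ (κ + 1) := by
      have h5 : g.natDegree ≤ W.natDegree + h := by
        rw [hg, hf]
        refine (natDegree_C_mul_le _ _).trans ((natDegree_mul_le).trans ?_)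
        rw [n1_natDegree hk]
      omega
    have hgn : ∀ n : ℤ, padicNorm p (g.eval (n : ℚ)) ≤ 1 := by
      intro n
      have h5 : g.eval (n : ℚ) = W.eval (n : ℚ) * (C (cc h k) * n1 h k).eval (n : ℚ) := by
        rw [hg, hf]
        simp only [eval_mul, eval_C]
        ring
      rw [h5]
      simpa using norm_mul_le (hW n) (norm_n1 hk n)
    refine norm_add_le ?_ ?_
    · have h6 := hW (-k)
      push_cast at h6
      have h7 : padicNorm p (γ + sSz α β k) ≤ p ^ (2 * κ) :=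
        norm_add_le (hγ.trans (one_le_pow₀ hp1')) (norm_sSz hp hα hβ (by omega))
      refine (norm_mul_le (norm_neg_two_pow k) (norm_mul_le h6 h7)).trans ?_
      rw [one_mul, one_mul, two_mul, pow_add]
      exact mul_le_mul_of_nonneg_left hR (by positivity)
    · have h8 : (g /ₘ (X - C (((-k : ℤ) : ℚ)))).natDegree < p ^ (κ + 1) := by
        rw [natDegree_divByMonic _ hm]
        omega
      refine (norm_EEz hα hβ h8 (A := p ^ κ * 1) (by positivity)
        (fun n => norm_divdiff hgd zero_le_one hgn (-k) n)).trans ?_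
      rw [mul_one]
      exact mul_le_mul_of_nonneg_left hR (by positivity)
  · rw [LLz_off W α β γ hl hkl]
    set g : ℚ[X] := C (cc h l) * (W * n2 h k l) with hg
    have h2 : cc h l * (-(α * EB (W * n2 h k l)) + β * EB (derivative (W * n2 h k l))) =
        -(α * EB g) + β * EB (derivative g) := by
      rw [hg, derivative_C_mul, ← smul_eq_C_mul, ← smul_eq_C_mul, map_smul, map_smul, smul_eq_mul,
        smul_eq_mul]
      ring
    rw [h2]
    have hgd : g.natDegree < p ^ (κ + 1) := by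
      have h5 : g.natDegree ≤ W.natDegree + h := by
        rw [hg]
        refine (natDegree_C_mul_le _ _).trans ((natDegree_mul_le).trans ?_)
        rw [n2_natDegree hk hl hkl]
        omega
      omega
    refine norm_EEz hα hβ hgd hR0 fun n => ?_
    have h5 : g.eval (n : ℚ) = W.eval (n : ℚ) * (C (cc h l) * n2 h k l).eval (n : ℚ) := by
      rw [hg]
      simp only [eval_mul, eval_C]
      ring
    rw [h5]
    have h6 := norm_n2 hk hl hkl ((norm_sub_inv hk hl hkl (by omega : h < p ^ (κ + 1))).trans hR)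
      (hR2 k l hk hl hkl) n
    simpa using norm_mul_le (hW n) h6

/-! ### integral coefficients -/

lemma norm_EEz_IC {p : ℕ} [Fact p.Prime] {α β : ℚ} (hα : padicNorm p α ≤ 1)
    (hβ : padicNorm p β ≤ 1) {q : ℚ[X]} (hq : IC p q) :
    padicNorm p (-(α * EB q) + β * EB (derivative q)) ≤ 1 := by
  refine norm_add_le ?_ ?_
  · rw [padicNorm.neg]
    simpa using norm_mul_le hα (norm_EB zero_le_one fun n => hq.eval n)
  · simpa using norm_mul_le hβ (norm_EB zero_le_one fun n => hq.derivative.eval n)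

/-- columns `l < p` are integral before scaling -/
theorem norm_entryz_IC {p : ℕ} [Fact p.Prime] (hp : p ≠ 2) {h : ℕ} {W : ℚ[X]} {α β γ : ℚ}
    (hα : padicNorm p α ≤ 1) (hβ : padicNorm p β ≤ 1) (hγ : padicNorm p γ ≤ 1)
    (hW : IC p W) {k l : ℕ} (hl : l ≤ h) (hlp : l < p) :
    padicNorm p (LLz h W α β γ (n1 h k * n1 h l)) ≤ 1 := by
  by_cases hkl : k = l
  · subst hkl
    rw [LLz_diag W α β γ hl]
    refine norm_add_le ?_ ?_
    · have h1 : padicNorm p (γ + sSz α β k) ≤ 1 :=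
        norm_add_le hγ (by simpa using norm_sSz (κ := 0) hp hα hβ (by simpa using hlp))
      have h2 := hW.eval (-k)
      push_cast at h2
      rw [div_eq_mul_inv]
      simpa using norm_mul_le (norm_mul_le (norm_mul_le (norm_neg_two_pow k) h2) h1) (norm_inv_cc h k)
    · exact norm_EEz_IC hα hβ ((hW.mul (IC_nd _)).div _)
  · rw [LLz_off W α β γ hl hkl]
    exact norm_EEz_IC hα hβ (hW.mul (IC_nd _))

/-! ### the bridge -/

lemma sSz_eq (α β : ℚ) (k : ℕ) : sSz α β k = α * Tz 1 k + β * Tz 2 k := by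
  unfold sSz Tz
  rw [Finset.mul_sum, Finset.mul_sum, ← Finset.sum_add_distrib]
  have h1 : Finset.Icc 1 k = Finset.Ico 1 (k + 1) := by
    ext j; simp only [Finset.mem_Icc, Finset.mem_Ico]; omega
  rw [h1, Finset.sum_Ico_eq_sum_range, Nat.add_sub_cancel]
  refine Finset.sum_congr rfl fun i _ => ?_
  push_cast
  rw [add_comm 1 i, add_comm (1 : ℚ) (i : ℚ)]
  ring

/-- the bridge -/
theorem L_eq_LLz {a b : ℕ} (hab : a ≤ b) (α β γ : ℚ) (f : ℚ[X]) :
    L a b α β γ f = LLz b 1 α β γ (An a * (An a * f)) := by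
  have h0 : L a b α β γ f = Lf a b α β γ f := rfl
  rw [h0, LLz_apply, one_mul]
  unfold Lf
  have h1 : pp a b f = (An a * (An a * f)) /ₘ PP b := by
    unfold pp
    have h2 : (PP b).Monic := nd_monic _
    have hA : (An a).Monic := nd_monic _
    have h3 := modByMonic_add_div (An a * f) (Pn a b)
    refine (div_modByMonic_unique _ (An a * ((An a * f) %ₘ Pn a b)) h2 ⟨?_, ?_⟩).1.symm
    · rw [← An_mul_Pn hab]
      linear_combination (An a) * h3
    · rw [← An_mul_Pn hab, degree_mul, degree_mul]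
      exact WithBot.add_lt_add_left (degree_ne_bot.2 hA.ne_zero)
        (degree_modByMonic_lt _ (Pn_monic a b))
  rw [h1]
  have h4 : ∑ k ∈ Finset.Icc a b, (2 : ℚ) ^ k * rs a b f k * (γ + α * Tz 1 k + β * Tz 2 k) =
      ∑ k ∈ Finset.range (b + 1),
        (-2) ^ k * cc b k * (An a * (An a * f)).eval (-(k : ℚ)) * (γ + sSz α β k) := by
    have h5 : Finset.Icc a b ⊆ Finset.range (b + 1) := by
      intro j; simp only [Finset.mem_range, Finset.mem_Icc]; omega
    rw [← Finset.sum_subset h5]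
    · refine Finset.sum_congr rfl fun k hk => ?_
      have h6 : (An a * el a b k).eval (-(k : ℚ)) = (-1) ^ k / cc b k := by
        rw [An_mul_el hk, n1_eval_self (Finset.mem_Icc.1 hk).2]
      have h7 : (el a b k).eval (-(k : ℚ)) = ∏ j ∈ (Finset.Icc a b).erase k, ((j : ℚ) - k) := by
        unfold el
        rw [nd_eval]
        refine Finset.prod_congr rfl fun j _ => ?_
        ring
      have h8 : ∏ j ∈ (Finset.Icc a b).erase k, ((j : ℚ) - k) ≠ 0 := by
        refine Finset.prod_ne_zero_iff.2 fun j hj => ?_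
        rw [sub_ne_zero]
        exact_mod_cast (Finset.mem_erase.1 hj).1
      have h9 : cc b k ≠ 0 := (cc_pos _ _).ne'
      rw [eval_mul, h7, eq_div_iff h9] at h6
      rw [sSz_eq]
      unfold rs
      rw [eval_mul, eval_mul, eval_mul]
      have h11 : (-1 : ℚ) ^ k * ((An a).eval (-(k : ℚ)) * f.eval (-(k : ℚ)) /
          ∏ j ∈ (Finset.Icc a b).erase k, ((j : ℚ) - k)) =
          cc b k * ((An a).eval (-(k : ℚ)) * ((An a).eval (-(k : ℚ)) * f.eval (-(k : ℚ)))) := by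
        field_simp
        linear_combination (-(An a).eval (-(k : ℚ)) * f.eval (-(k : ℚ))) * h6
      have h12 : (2 : ℚ) ^ k = (-2) ^ k * (-1) ^ k := by
        rw [← mul_pow]; norm_num
      have h13 : (2 : ℚ) ^ k * ((An a).eval (-(k : ℚ)) * f.eval (-(k : ℚ)) /
          ∏ j ∈ (Finset.Icc a b).erase k, ((j : ℚ) - k)) =
          (-2) ^ k * cc b k *
            ((An a).eval (-(k : ℚ)) * ((An a).eval (-(k : ℚ)) * f.eval (-(k : ℚ)))) := by
        rw [h12, mul_assoc, h11]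
        ring
      rw [h13]
      ring
    · intro k hk hk'
      rw [Finset.mem_range] at hk
      rw [Finset.mem_Icc] at hk'
      rw [eval_mul, An_eval_zero (by omega)]
      ring
  rw [h4]
  ring

/-- entries -/
theorem L_elz {a b k l : ℕ} (hab : a ≤ b) (α β γ : ℚ) (hk : k ∈ Finset.Icc a b)
    (hl : l ∈ Finset.Icc a b) :
    L a b α β γ (el a b k * el a b l) = LLz b 1 α β γ (n1 b k * n1 b l) := by
  rw [L_eq_LLz hab]
  congr 1
  rw [← An_mul_el hk, ← An_mul_el hl]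
  ring

/-- main determinant bound -/
theorem norm_DDz {p : ℕ} [Fact p.Prime] {a b r s m : ℕ} (hr : r ≤ 2)
    (hs : 1 ≤ r → s ∈ Finset.Icc a b)
    (hs1 : r = 2 → s + 1 ∈ Finset.Icc a b) (hm : a + m + r = b + 1) (α β γ : ℚ) (B : ℕ → ℚ)
    (hB : ∀ k l : ℕ, k ∈ SS a b r s → l ∈ SS a b r s →
      padicNorm p (cc b l * L a b α β γ (gg a b r s k * gg a b r s l)) ≤ B l) :
    padicNorm p (∏ k ∈ SS a b r s, mm r s k) * padicNorm p (DD a b m α β γ) ≤
      (∏ k ∈ SS a b r s, padicNorm p ((An a).eval (-(k : ℚ)))) * ∏ l ∈ SS a b r s, B l := by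
  have hcard := SS_card hr hs hs1 hm
  set ν : Fin m → ℕ := fun i => (SS a b r s).orderEmbOfFin hcard i with hνdef
  have hν : Function.Injective ν := ((SS a b r s).orderEmbOfFin hcard).injective
  have hS : Finset.univ.image ν = SS a b r s := Finset.image_orderEmbOfFin_univ _ hcard
  have hmem : ∀ i : Fin m, ν i ∈ SS a b r s := fun i => Finset.orderEmbOfFin_mem _ hcard i
  have h1 := norm_hankel_gen (p := p) (L a b α β γ) ν hν (SS a b r s) hS (mm r s) (gg a b r s)
    (cc b) (fun k => (An a).eval (-(k : ℚ))) (fun k hk => mm_nd hr hs hs1 hk) (fun k hk => by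
      rw [gg_eval hr hk]
      exact norm_cc_An_el (SS_sub _ _ _ _ hk))
  have h2 : DD a b m α β γ = (HkQ (L a b α β γ) m).det := rfl
  rw [h2, h1]
  refine mul_le_mul_of_nonneg_left ?_ (Finset.prod_nonneg fun k _ => padicNorm.nonneg _)
  have h3 : ∏ l ∈ SS a b r s, B l = ∏ i : Fin m, B (ν i) := by
    rw [← hS, Finset.prod_image (fun a _ b _ hab => hν hab)]
  rw [h3]
  exact norm_det _ (fun j => B (ν j)) fun i j => hB _ _ (hmem i) (hmem j)

end

end Pool.Agent.TH11.DL
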